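import Pool.Agent.Lib.MP_7ebee3_an.Final

set_option autoImplicit false
open Pool.Agent.Lib.MP_7ebee3_an

/-- There is a bounded pseudoconvex domain with smooth (even real-analytic, algebraic) boundary in
`ℂ⁴` on which `∂̄ : Λ^α(Ω̄) → Λ^β_{(0,1)}(Ω̄)` does not have closed range for all
`0 < α < β ≤ 1/198`. -/
theorem Pool.Agent.Results.MP_7ebee3_an.NotClosed.result :
    ∃ Ω : Set (Fin 4 → ℂ),
      Ω = {x | ‖x 3‖ ^ 2 + ‖x 0 ^ 2 * (x 1 ^ 6 - x 2)‖ ^ 2 + ‖x 2 ^ 2‖ ^ 2 + ‖x 0 ^ 12‖ ^ 2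
        + ‖x 1 ^ 36‖ ^ 2 < 1} ∧
      IsOpen Ω ∧ IsConnected Ω ∧ Bornology.IsBounded Ω ∧ SmoothBoundary Ω ∧ Pseudoconvex Ω ∧
      ∀ α β : ℝ, 0 < α → α < β → β ≤ 1 / 198 → ¬ DbarClosedRange α β Ω :=
  ⟨Dom, rfl, Dom_open, Dom_connected, Dom_bounded, Dom_smoothBoundary, Dom_pseudoconvex,
    fun _ _ hα hαβ hβ => not_closed hα hαβ hβ⟩
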